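import Pool.Agent.Helper90.KOM.Stmts
import Pool.Agent.Helper38.ZS2.Stmts

/-!
# The Komlos problem in any dimension: statements of the last modules

Final form, on top of `Pool.Agent.Helper90.KOM` (partition functions, ranks, row sums) and
`Pool.Agent.Helper38.ZS2` (zonotope signing with cheap coordinates).
-/

namespace Pool.Agent.Helper37.KF2

open Finset
open scoped Classical
open Pool.Agent.Helper3.NFR (ph ps c0)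
open Pool.Agent.Helper90.KOM (fn Happy rr)

noncomputable section

/-- relative tolerance of a row of mass `r` with inverse tolerance `l` -/
def tl (r l : ℝ) : ℝ := (min 1 (r / l ^ 2)) ^ (1 / 200 : ℝ)

/-- 6. `l1` domination with small rows -/
def ST_L1D : Prop :=
  ∃ C : ℝ, 0 < C ∧ ∀ (V R : Type) [Fintype V] [Fintype R] (a : V → R → ℝ) (α β γ : ℝ) (lam : R → ℝ)
    (s : V → ℝ) (T E : Finset V), 0 ≤ α → 0 ≤ β → 0 ≤ γ → (∀ S, 0 < lam S) →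
    (∀ v, 0 ≤ s v ∧ s v ≤ 1) →
    (∀ y : R → ℝ, α * ∑ u ∈ E, ph (fn a u y) ≤
      β * ∑ S, ps (lam S * y S) + γ * ∑ v ∈ T, ph (s v * fn a v y)) →
    ∀ y : R → ℝ, α * ∑ u ∈ E, |fn a u y| ≤
      4 * γ * ∑ v ∈ T, s v * |fn a v y|
        + C * (α + β + γ) * ∑ S, lam S
          * (min 1 ((∑ v ∈ E, a v S ^ 2 + ∑ v ∈ T, a v S ^ 2) / lam S ^ 2)) ^ (1 / 5 : ℝ) * |y S|

/-- 18. signing for functionals: `T` has weights, `R` are the rows (uses ZS2.ST_SIGN2) -/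
def ST_SIGNF : Prop :=
  ∀ β : ℝ, 0 < β → β ≤ 1 → ∃ η C : ℝ, 0 < η ∧ η ≤ 1 ∧ 1 ≤ C ∧
    ∀ (V R : Type) [Fintype V] [Fintype R] (a : V → R → ℝ) (lam : R → ℝ) (q : V → ℝ)
      (T E : Finset V), Disjoint T E → (∀ S, 0 < lam S) → (∀ v, 0 ≤ q v) → (∀ v, q v ≤ 1) →
      (∀ u ∈ E, ∀ y : R → ℝ, (fn a u y) ^ 2 ≤
        η * (∑ S, (lam S * y S) ^ 2 + ∑ v ∈ T, (q v * fn a v y) ^ 2)) →
      ∃ ξ : V → ℝ, (∀ v, ξ v = 1 ∨ ξ v = -1) ∧ ∀ y : R → ℝ, ∑ u ∈ E, ξ u * fn a u y ≤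
        β * ∑ u ∈ E, |fn a u y| + C * (∑ S, lam S * tl (∑ v ∈ T ∪ E, a v S ^ 2) (lam S) * |y S|
          + ∑ v ∈ T, q v * |fn a v y|)

/-- 19. bits: abstract form (`f u y` the functionals, `M` the rest of the error) -/
def ST_BITS : Prop :=
  ∀ (V Y : Type) [Fintype V] (f : V → Y → ℝ) (M : Y → ℝ) (β : ℝ) (E : Finset V), 0 < β →
    (∀ y, 0 ≤ M y) →
    (∀ E' ⊆ E, ∃ ξ : V → ℝ, (∀ v, ξ v = 1 ∨ ξ v = -1) ∧ ∀ y, ∑ u ∈ E', ξ u * f u y ≤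
      β * ∑ u ∈ E', |f u y| + M y) →
    ∀ z : V → ℝ, (∀ v, |z v| ≤ 1) → ∃ x : V → ℝ, (∀ v, x v = 1 ∨ x v = -1) ∧
      ∀ y, ∑ u ∈ E, (x u - z u) * f u y ≤ 4 * β * ∑ u ∈ E, |f u y| + 2 * M y

/-- 20. one level (uses KOM.ST_DOM, 6, 18, 19 and the duality
`Pool.Agent.Helper92.NF.cert_exists`) -/
def ST_STEP : Prop :=
  ∃ b C : ℝ, 0 < b ∧ b ≤ 1 ∧ 0 < C ∧
    ∀ (V R : Type) [Fintype V] [Fintype R] (a : V → R → ℝ) (lam : R → ℝ) (s : V → ℝ)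
      (T E : Finset V), Disjoint T E → (∀ S, 0 < lam S) → (∀ v, 0 ≤ s v) → (∀ v, s v ≤ 1) →
      (∀ u ∈ E, Happy a b c0 (1 / 100) lam s T E u) →
      ∀ z : V → ℝ, (∀ v, |z v| ≤ 1) → ∃ x ζ : V → ℝ, (∀ v, x v = 1 ∨ x v = -1) ∧
        (∀ v, |ζ v| ≤ s v / 4) ∧
        ∀ S, |∑ u ∈ E, (x u - z u) * a u S + ∑ v ∈ T, ζ v * a v S|
          ≤ C * (lam S * tl (∑ v ∈ T ∪ E, a v S ^ 2) (lam S))

/-- 22. the Komlos theorem (uses KOM.ST_RANK, 20, KOM.ST_ERR) -/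
def ST_KOMLOS : Prop :=
  ∃ K : ℝ, 0 < K ∧ ∀ (V R : Type) [Fintype V] [Fintype R] (a : V → R → ℝ),
    (∀ v, ∑ S, a v S ^ 2 ≤ 1) → ∃ x : V → ℝ, (∀ v, x v = 1 ∨ x v = -1) ∧
      ∀ S, |∑ v, x v * a v S| ≤ K

end

end Pool.Agent.Helper37.KF2
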