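import Pool.Agent.Helper38.ZS.Defs

/-!
# The Komlos problem in any dimension: definitions

`a v S` is the entry of the row `S` in the column `v`; the columns have Euclidean length at most one.
Real vectors `y : R → ℝ` are dual vectors, `fn a v y` is the functional of the column `v`.
-/

namespace Pool.Agent.Helper37.KF

open Finset
open scoped Classical

noncomputable section

/-- potential of a column -/
def ph (x : ℝ) : ℝ := x ^ 2 / (1 + x ^ 2)

/-- potential of a row -/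
def ps (x : ℝ) : ℝ := Real.log (1 + x ^ 2)

/-- normalisation constant -/
def J0 : ℝ := ∫ x : ℝ, ((1 + x ^ 2) ^ 2)⁻¹

/-- density of a row -/
def dn (l x : ℝ) : ℝ := l / J0 * ((1 + (l * x) ^ 2) ^ 2)⁻¹

variable {V R : Type} [Fintype V] [Fintype R]

/-- the functional of the column `v` -/
def fn (a : V → R → ℝ) (v : V) (y : R → ℝ) : ℝ := ∑ S, a v S * y S

/-- the exponent of the columns -/
def xp (a : V → R → ℝ) (c : ℝ) (s : V → ℝ) (T E : Finset V) (y : R → ℝ) : ℝ :=
  c * ∑ u ∈ E, ph (fn a u y) - ∑ v ∈ T, ph (s v * fn a v y)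

/-- the weight function -/
def wt (a : V → R → ℝ) (b c : ℝ) (lam : R → ℝ) (s : V → ℝ) (T E : Finset V) (y : R → ℝ) : ℝ :=
  (∏ S, dn (lam S) (y S)) * Real.exp (b * xp a c s T E y)

/-- the partition function -/
def ZZ (a : V → R → ℝ) (b c : ℝ) (lam : R → ℝ) (s : V → ℝ) (T E : Finset V) : ℝ :=
  ∫ y : R → ℝ, wt a b c lam s T E y

/-- a column `u` is happy -/
def Happy (a : V → R → ℝ) (b c ε : ℝ) (lam : R → ℝ) (s : V → ℝ) (T E : Finset V) (u : V) : Prop :=
  ∫ y : R → ℝ, ph (fn a u y) * wt a b c lam s T E y ≤ ε * ZZ a b c lam s T E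

/-! ## ranks -/

/-- weight of a reserve column at level `i` -/
def sw (k : V → ℕ) (i : ℕ) (v : V) : ℝ := 1 / 2 ^ (k v - i - 1)

/-- reserve at level `i` -/
def TT (k : V → ℕ) (i : ℕ) : Finset V := Finset.univ.filter (fun v => i < k v)

/-- columns of rank `i` -/
def EE (k : V → ℕ) (i : ℕ) : Finset V := Finset.univ.filter (fun v => k v = i)

/-- mass of the row `S` on the columns of rank at least `j` -/
def rr (a : V → R → ℝ) (k : V → ℕ) (j : ℕ) (S : R) : ℝ :=
  ∑ v ∈ Finset.univ.filter (fun v => j ≤ k v), a v S ^ 2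

/-- square root of the growth rate -/
def gg : ℝ := 41

/-- growth rate of the weights of the levels -/
def Ga : ℝ := gg ^ 2

/-- the constant of the sources -/
def c0 : ℝ := 1 / 2689600

/-- thresholds of the row masses at distance `d` (in levels) -/
def NN (J : ℕ) (d : ℤ) : ℝ :=
  if (J : ℤ) ≤ d then (gg ^ (d - J).toNat)⁻¹ else (gg ^ (J - d).toNat) ^ 4

/-- exponent of the row `S` at level `i`, `M` bounds the ranks -/
def ex (r : ℕ → ℝ) (J M i : ℕ) : ℝ :=
  ∑ j ∈ Finset.range M, max 0 (Real.log (r j / NN J ((j : ℤ) - i)))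

/-- inverse tolerance of a row at level `i` -/
def lm (a : V → R → ℝ) (l0 : ℝ) (J M : ℕ) (k : V → ℕ) (i : ℕ) (S : R) : ℝ :=
  l0 * Real.exp (-ex (fun j => rr a k j S) J M i)

/-- relative tolerance of a row of mass `r` with inverse tolerance `l` -/
def tl (r l : ℝ) : ℝ := (min 1 (r / l ^ 2)) ^ (1 / 200 : ℝ)

end

/-- coordinates `Q` with rank one directions in the range of the projection -/
structure Cheap {ι : Type} [Fintype ι] (P : ι → ι → ℝ) (Q : Finset ι) (θ0 : ℝ) (θ : ι → ℝ)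
    (B : ι → ι → ℝ) : Prop where
  pos : ∀ j ∈ Q, 0 < θ j
  le : ∀ j ∈ Q, θ j ≤ θ0
  rng : ∀ j ∈ Q, Pool.Agent.Helper38.ZS.ap P (B j) = B j
  one : ∀ j ∈ Q, B j j = 1
  zero : ∀ j ∈ Q, ∀ k ∈ Q, k ≠ j → B j k = 0
  sum : ∀ j ∈ Q, ∑ i ∈ Qᶜ, B j i ^ 2 ≤ θ j

end Pool.Agent.Helper37.KF
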