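import Pool.Agent.Helper37.KF.Defs
import Pool.Agent.Helper38.ZS.Stmts

/-!
# The Komlos problem in any dimension: statements of the modules
-/

namespace Pool.Agent.Helper37.KF

open Finset
open scoped Classical

noncomputable section

/-- 1. elementary inequalities -/
def ST_RAT : Prop :=
  (∀ x h : ℝ, ps (x + h) + ps (x - h) - 2 * ps x ≤ 2 * ps h) ∧
  (∀ x h : ℝ, ph (x + h) + ph (x - h) - 2 * ph x ≤ 2 * ph h) ∧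
  (∀ x h : ℝ, 2 * ph h * (1 - 6 * ph x) ≤ ph (x + h) + ph (x - h) - 2 * ph x) ∧
  (∀ x : ℝ, ph x - ph (x / 2) ≤ 1 / 3) ∧
  (∀ x h : ℝ, ps (x + h) ≤ Real.log 2 + ps x + ps h) ∧
  (∀ x h : ℝ, ph (x + h) ≤ 2 * ph x + 2 * h ^ 2)

/-- 2. the integrals exist -/
def ST_INT : Prop :=
  ∀ (V R : Type) [Fintype V] [Fintype R] (a : V → R → ℝ) (b c : ℝ) (lam : R → ℝ) (s : V → ℝ)
    (T E : Finset V), 0 ≤ b → 0 ≤ c → (∀ S, 0 < lam S) →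
    MeasureTheory.Integrable (wt a b c lam s T E) ∧ 0 < ZZ a b c lam s T E ∧
    ∫ y : R → ℝ, ∏ S, dn (lam S) (y S) = 1

/-- 3. happiness gives domination and leverage -/
def ST_DOM : Prop :=
  ∀ (V R : Type) [Fintype V] [Fintype R] (a : V → R → ℝ) (b c : ℝ) (lam : R → ℝ) (s : V → ℝ)
    (T E : Finset V), 0 < b → 0 ≤ c → (∀ S, 0 < lam S) →
    (∀ u ∈ E, Happy a b c (1 / 100) lam s T E u) →
    (∀ y : R → ℝ, b * c / 2 * ∑ u ∈ E, ph (fn a u y) ≤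
      2 * ∑ S, ps (lam S * y S) + b * ∑ v ∈ T, ph (s v * fn a v y)) ∧
    (∀ u ∈ E, ∀ y : R → ℝ, (fn a u y) ^ 2 ≤
      2 * ∑ S, (lam S * y S) ^ 2 + b * ∑ v ∈ T, (s v * fn a v y) ^ 2)

/-- 4. random rounding of the dual vector -/
def ST_ROUND : Prop :=
  ∀ (V R : Type) [Fintype V] [Fintype R] (a : V → R → ℝ) (α γ : ℝ) (lam r : R → ℝ) (s : V → ℝ)
    (T E : Finset V) (A : Finset R), 0 ≤ α → α ≤ 1 → 0 ≤ γ → γ ≤ 1 → Disjoint T E →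
    (∀ S, 0 < lam S) → (∀ v, 0 ≤ s v) → (∀ v, s v ≤ 1) → (∀ S ∈ A, 0 < r S) →
    (∀ S ∈ A, ∑ v ∈ T ∪ E, a v S ^ 2 ≤ r S) →
    (∀ y : R → ℝ, α * ∑ u ∈ E, ph (fn a u y) ≤
      2 * ∑ S, ps (lam S * y S) + γ * ∑ v ∈ T, ph (s v * fn a v y)) →
    ∀ y : R → ℝ, (∀ S ∈ A, |y S| ≤ 1 / Real.sqrt (r S)) →
      α / 2 * ∑ u ∈ E, ph (fn a u y) ≤
        2 * ∑ S ∈ Aᶜ, ps (lam S * y S)
          + 2 * ∑ S ∈ A, Real.sqrt (r S) * |y S| * (1 + Real.log (1 + lam S ^ 2 / r S))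
          + 2 * γ * ∑ v ∈ T, ph (s v * fn a v y)

/-- 5. from `ph` to the absolute value: integrate over all scales -/
def ST_SCALE : Prop :=
  ∀ (I K L : Type) [Fintype I] [Fintype K] [Fintype L] (x : I → ℝ) (β z : K → ℝ) (w : L → ℝ)
    (α γ : ℝ), (∀ h : ℝ, 0 < h → α * ∑ i, ph (x i / h) ≤ ∑ j, β j * ps (z j / h)
      + γ * ∑ l, ph (w l / h)) →
    α * ∑ i, |x i| ≤ 2 * ∑ j, β j * |z j| + γ * ∑ l, |w l|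

/-- 6. `l1` domination with small rows (uses 3, 4, 5) -/
def ST_L1D : Prop :=
  ∃ C : ℝ, 0 < C ∧ ∀ (V R : Type) [Fintype V] [Fintype R] (a : V → R → ℝ) (α γ : ℝ) (lam r : R → ℝ)
    (s : V → ℝ) (T E : Finset V), 0 ≤ α → α ≤ 1 → 0 ≤ γ → γ ≤ 1 → Disjoint T E →
    (∀ S, 0 < lam S) → (∀ v, 0 ≤ s v) → (∀ v, s v ≤ 1) →
    (∀ S, ∑ v ∈ T ∪ E, a v S ^ 2 ≤ r S) →
    (∀ y : R → ℝ, α * ∑ u ∈ E, ph (fn a u y) ≤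
      2 * ∑ S, ps (lam S * y S) + γ * ∑ v ∈ T, ph (s v * fn a v y)) →
    ∀ y : R → ℝ, α * ∑ u ∈ E, |fn a u y| ≤
      4 * γ * ∑ v ∈ T, s v * |fn a v y| + C * ∑ S, lam S * tl (r S) (lam S) * |y S|

/-- 7. pointwise comparison -/
def ST_CMP : Prop :=
  ∀ (V R : Type) [Fintype V] [Fintype R] (a : V → R → ℝ) (b c K : ℝ) (lam lam' : R → ℝ)
    (s s' : V → ℝ) (T E T' E' : Finset V), 0 ≤ b → 0 ≤ c → (∀ S, 0 < lam S) → (∀ S, 0 < lam' S) →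
    (∀ y, wt a b c lam' s' T' E' y ≤ Real.exp K * wt a b c lam s T E y) →
    Real.log (ZZ a b c lam' s' T' E') ≤ K + Real.log (ZZ a b c lam s T E)

/-- 8. an unhappy column is raised: gain -/
def ST_GAIN : Prop :=
  ∀ (V R : Type) [Fintype V] [Fintype R] (a : V → R → ℝ) (b c ε : ℝ) (lam : R → ℝ) (s s' : V → ℝ)
    (T E : Finset V) (u : V), 0 ≤ b → b ≤ 1 → 0 ≤ c → 0 ≤ ε → (∀ S, 0 < lam S) → u ∈ E → u ∉ T →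
    s' u = 1 → (∀ v, v ≠ u → s' v = s v) → ¬ Happy a b c ε lam s T E u →
    Real.log (ZZ a b c lam s' (insert u T) (E.erase u)) ≤ Real.log (ZZ a b c lam s T E) - b * ε / 2

/-- 9. the other changes under a raise: halving a weight, a new source, smaller `lam` -/
def ST_CHG : Prop :=
  ∀ (V R : Type) [Fintype V] [Fintype R] (a : V → R → ℝ) (b c : ℝ) (lam : R → ℝ) (s : V → ℝ)
    (T E : Finset V) (u : V), 0 ≤ b → 0 ≤ c → (∀ S, 0 < lam S) →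
    (∀ s' : V → ℝ, s' u = s u / 2 → (∀ v, v ≠ u → s' v = s v) →
      Real.log (ZZ a b c lam s' T E) ≤ Real.log (ZZ a b c lam s T E) + b / 3) ∧
    Real.log (ZZ a b c lam s T (insert u E)) ≤ Real.log (ZZ a b c lam s T E) + b * c ∧
    (∀ d : R → ℝ, (∀ S, 0 ≤ d S) →
      Real.log (ZZ a b c (fun S => lam S * Real.exp (-d S)) s T E)
        ≤ Real.log (ZZ a b c lam s T E) + 3 * ∑ S, d S)

/-- 10. lower bound of the partition function -/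
def ST_LOW : Prop :=
  ∃ C : ℝ, 0 < C ∧ ∀ (V R : Type) [Fintype V] [Fintype R] (a : V → R → ℝ) (b c l0 : ℝ)
    (e : R → ℝ) (s : V → ℝ) (T E : Finset V), 0 ≤ b → 0 ≤ c → 0 < l0 → (∀ v, ∑ S, a v S ^ 2 ≤ 1) →
    (∀ v, 0 ≤ s v) → (∀ v, s v ≤ 1) → (∀ S, 0 ≤ e S) →
    - (∑ S, e S) - C * b / l0 ^ 2 * T.card ≤
      Real.log (ZZ a b c (fun S => l0 * Real.exp (-e S)) s T E)

/-- 11. upper bound of the partition function -/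
def ST_UP : Prop :=
  ∀ (V R : Type) [Fintype V] [Fintype R] (a : V → R → ℝ) (b c : ℝ) (lam : R → ℝ) (s : V → ℝ)
    (T E : Finset V), 0 ≤ b → 0 ≤ c → (∀ S, 0 < lam S) →
    Real.log (ZZ a b c lam s T E) ≤ b * c * E.card

/-- 12. the exponents: total cost and change under a raise (`Ga ^ i` times the exponents) -/
def ST_EXP : Prop :=
  ∀ δ : ℝ, 0 < δ → ∃ J : ℕ,
    (∀ (r : ℕ → ℝ) (M N : ℕ), (∀ j, 0 ≤ r j) →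
      ∑ i ∈ Finset.range N, Ga ^ i * ex r J M i ≤ δ * ∑ j ∈ Finset.range M, Ga ^ j * r j) ∧
    (∀ (r r' : ℕ → ℝ) (M N i : ℕ) (x : ℝ), (∀ j, 0 ≤ r j) → 0 ≤ x → (∀ j, j ≠ i + 1 → r' j = r j) →
      r' (i + 1) = r (i + 1) + x →
      (∀ l, ex r J M l ≤ ex r' J M l) ∧
      ∑ l ∈ Finset.range N, Ga ^ l * (ex r' J M l - ex r J M l) ≤ δ * Ga ^ i * x)

/-- 13. the rank function (uses 1, 2, 7 - 12) -/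
def ST_RANK : Prop :=
  ∃ l0 : ℝ, 0 < l0 ∧ ∀ b : ℝ, 0 < b → b ≤ 1 → ∃ J : ℕ, ∀ (V R : Type) [Fintype V] [Fintype R]
    (a : V → R → ℝ), (∀ v, ∑ S, a v S ^ 2 ≤ 1) →
    ∃ (k : V → ℕ) (M : ℕ), (∀ v, k v < M) ∧
      ∀ i, ∀ u ∈ EE k i, Happy a b c0 (1 / 100) (lm a l0 J M k i) (sw k i) (TT k i) (EE k i) u

/-- 14. level selection with general weights outside `V` -/
def ST_LEVEL : Prop :=
  ∃ C0 : ℝ, 1 ≤ C0 ∧ ∀ (ι : Type) [Fintype ι] (V : Finset ι) (f ξ w : ι → ℝ) (β : ℝ),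
    0 < β → β ≤ 1 → (∀ i, 0 ≤ w i) → (∀ i ∈ V, |ξ i| ≤ 1) →
    β * Pool.Agent.Helper38.ZS.l1 f V + ∑ i ∈ Vᶜ, w i * |f i| < ∑ i ∈ V, ξ i * f i →
    ∃ s : ℝ, 0 < s ∧ 0 < ∑ i ∈ V, |Pool.Agent.Helper38.ZS.TT (s * f i)| ∧
      β / 2 * ∑ i ∈ V, |Pool.Agent.Helper38.ZS.TT (s * f i)|
        < ∑ i ∈ V, ξ i * Pool.Agent.Helper38.ZS.TT (s * f i) ∧
      ∀ h : ℤ, (2 : ℝ) ^ h * (β * (#(V.filter (fun i => (2 : ℝ) ^ (h + 1) ≤ |s * f i|)) : ℝ)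
          + ∑ i ∈ Vᶜ.filter (fun i => (2 : ℝ) ^ (h + 1) ≤ |s * f i|), w i)
        ≤ C0 * (2 : ℝ) ^ (|(h : ℝ)| / 40) * ∑ i ∈ V, |Pool.Agent.Helper38.ZS.TT (s * f i)|

/-- 15. quantisation of the cheap coordinates -/
def ST_QUANT : Prop :=
  ∀ δ : ℝ, 0 < δ → δ ≤ 1 → ∃ θ0 : ℝ, 0 < θ0 ∧ θ0 ≤ 1 ∧ ∀ (ι : Type) [Fintype ι] (P : ι → ι → ℝ)
    (Q : Finset ι) (g θ : ι → ℝ) (B : ι → ι → ℝ) (m : ℝ), 0 ≤ m →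
    Pool.Agent.Helper38.ZS.ap P g = g → Cheap P Q θ0 θ B →
    (∀ h : ℤ, (2 : ℝ) ^ h * ∑ j ∈ Q.filter (fun j => (2 : ℝ) ^ (h + 1) ≤ |g j|), θ j ^ (1 / 200 : ℝ)
      ≤ (2 : ℝ) ^ (|(h : ℝ)| / 40) * m) →
    ∃ g' : ι → ℝ, Pool.Agent.Helper38.ZS.ap P g' = g' ∧ ∑ i ∈ Qᶜ, (g' i - g i) ^ 2 ≤ δ * m ∧
      Pool.Agent.Helper38.ZS.nu g' (Q.filter (fun j => 1 ≤ |g' j|)) ≤ δ * m ∧
      ∑ j ∈ Q.filter (fun j => |g' j| < 1), g' j ^ 2 ≤ δ * m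

/-- 16. a bad vector has a bad piece -/
def ST_PIECE : Prop :=
  ∀ β : ℝ, 0 < β → β ≤ 1 → ∃ C1 : ℝ, 1 ≤ C1 ∧ ∀ ε : ℝ, 0 < ε → ε ≤ 1 →
    ∃ γ κ C : ℝ, 0 < γ ∧ γ ≤ 1 ∧ 0 < κ ∧ κ ≤ 1 ∧ 1 ≤ C ∧ ∀ L : ℝ, 1 ≤ L → ∃ θ0 : ℝ, 0 < θ0 ∧ θ0 ≤ 1 ∧
    ∀ (ι : Type) [Fintype ι] (P : ι → ι → ℝ) (V Q : Finset ι) (f ξ θ : ι → ℝ) (B : ι → ι → ℝ),
      Pool.Agent.Helper38.ZS.IsPr P → Disjoint V Q → Cheap P Q θ0 θ B →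
      Pool.Agent.Helper38.ZS.ap P f = f → (∀ i ∈ V, |ξ i| ≤ 1) →
      β * Pool.Agent.Helper38.ZS.l1 f V + L * Pool.Agent.Helper38.ZS.l1 f (V ∪ Q)ᶜ
        + ∑ j ∈ Q, θ j ^ (1 / 200 : ℝ) * |f j| < ∑ i ∈ V, ξ i * f i →
      ∃ (g : ι → ℝ) (Z : Finset ι) (m : ℝ),
        m = ∑ i ∈ Z ∩ V, |Pool.Agent.Helper38.ZS.TT (g i)| ∧ 0 < m ∧
        β / 4 * m < ∑ i ∈ Z ∩ V, ξ i * Pool.Agent.Helper38.ZS.TT (g i) ∧ (∀ i ∈ Z, γ ≤ |g i|) ∧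
        Pool.Agent.Helper38.ZS.Link P κ Z g ∧ Pool.Agent.Helper38.ZS.nu g Z ≤ C * m ∧
        Pool.Agent.Helper38.ZS.nu g (Z \ V) ≤ C / L * m ∧
        Pool.Agent.Helper38.ZS.DD P g Z ≤ ε * m ∧
        (#((Z ∩ V).filter (fun i => 1 / 2 ≤ |g i|)) : ℝ) ≤ C1 * m

/-- 17. zonotope signing with cheap coordinates -/
def ST_SIGN : Prop :=
  ∀ β : ℝ, 0 < β → β ≤ 1 → ∃ η L θ0 : ℝ, 0 < η ∧ 1 ≤ L ∧ 0 < θ0 ∧ θ0 ≤ 1 ∧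
    ∀ (ι : Type) [Fintype ι] (P : ι → ι → ℝ) (V Q : Finset ι) (θ : ι → ℝ) (B : ι → ι → ℝ),
      Pool.Agent.Helper38.ZS.IsPr P → (∀ i ∈ V, P i i ≤ η) → Disjoint V Q → Cheap P Q θ0 θ B →
      ∃ ξ : ι → ℝ, (∀ i, ξ i = 1 ∨ ξ i = -1) ∧
        ∀ f : ι → ℝ, Pool.Agent.Helper38.ZS.ap P f = f →
          ∑ i ∈ V, ξ i * f i ≤ β * Pool.Agent.Helper38.ZS.l1 f V
            + L * Pool.Agent.Helper38.ZS.l1 f (V ∪ Q)ᶜ + ∑ j ∈ Q, θ j ^ (1 / 200 : ℝ) * |f j|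

/-- 18. signing for functionals: `T` has weights, `R` are the rows (uses 17) -/
def ST_SIGNF : Prop :=
  ∀ β : ℝ, 0 < β → β ≤ 1 → ∃ η C : ℝ, 0 < η ∧ η ≤ 1 ∧ 1 ≤ C ∧
    ∀ (V R : Type) [Fintype V] [Fintype R] (a : V → R → ℝ) (lam : R → ℝ) (q : V → ℝ)
      (T E : Finset V), Disjoint T E → (∀ S, 0 < lam S) → (∀ v, 0 ≤ q v) → (∀ v, q v ≤ 1) →
      (∀ u ∈ E, ∀ y : R → ℝ, (fn a u y) ^ 2 ≤
        η * (∑ S, (lam S * y S) ^ 2 + ∑ v ∈ T, (q v * fn a v y) ^ 2)) →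
      ∃ ξ : V → ℝ, (∀ v, ξ v = 1 ∨ ξ v = -1) ∧ ∀ y : R → ℝ, ∑ u ∈ E, ξ u * fn a u y ≤
        β * ∑ u ∈ E, |fn a u y| + C * (∑ S, lam S * tl (∑ v ∈ T ∪ E, a v S ^ 2) (lam S) * |y S|
          + ∑ v ∈ T, q v * |fn a v y|)

/-- 19. bits: abstract form (`f u y` the functionals, `M` the rest of the error) -/
def ST_BITS : Prop :=
  ∀ (V Y : Type) [Fintype V] (f : V → Y → ℝ) (M : Y → ℝ) (β : ℝ) (E : Finset V), 0 < β →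
    (∀ y, 0 ≤ M y) →
    (∀ E' ⊆ E, ∃ ξ : V → ℝ, (∀ v, ξ v = 1 ∨ ξ v = -1) ∧ ∀ y, ∑ u ∈ E', ξ u * f u y ≤
      β * ∑ u ∈ E', |f u y| + M y) →
    ∀ z : V → ℝ, (∀ v, |z v| ≤ 1) → ∃ x : V → ℝ, (∀ v, x v = 1 ∨ x v = -1) ∧
      ∀ y, ∑ u ∈ E, (x u - z u) * f u y ≤ 4 * β * ∑ u ∈ E, |f u y| + 2 * M y

/-- 20. one level (uses 3, 6, 18, 19 and the duality `Pool.Agent.Helper92.NF.cert_exists`) -/
def ST_STEP : Prop :=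
  ∃ b C : ℝ, 0 < b ∧ b ≤ 1 ∧ 0 < C ∧
    ∀ (V R : Type) [Fintype V] [Fintype R] (a : V → R → ℝ) (lam : R → ℝ) (s : V → ℝ)
      (T E : Finset V), Disjoint T E → (∀ S, 0 < lam S) → (∀ v, 0 ≤ s v) → (∀ v, s v ≤ 1) →
      (∀ u ∈ E, Happy a b c0 (1 / 100) lam s T E u) →
      ∀ z : V → ℝ, (∀ v, |z v| ≤ 1) → ∃ x ζ : V → ℝ, (∀ v, x v = 1 ∨ x v = -1) ∧
        (∀ v, |ζ v| ≤ s v / 4) ∧
        ∀ S, |∑ u ∈ E, (x u - z u) * a u S + ∑ v ∈ T, ζ v * a v S|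
          ≤ C * (lam S * tl (∑ v ∈ T ∪ E, a v S ^ 2) (lam S))

/-- 21. the sum of the errors of one row: pure analysis -/
def ST_ERR : Prop :=
  ∀ (J : ℕ) (l0 : ℝ), 0 < l0 → ∃ C : ℝ, ∀ (r : ℕ → ℝ) (M : ℕ), (∀ j, 0 ≤ r j) → Antitone r →
    ∑ i ∈ Finset.range M, l0 * Real.exp (-ex r J M i) * tl (r i) (l0 * Real.exp (-ex r J M i)) ≤ C

/-- 22. the Komlos theorem (uses 13, 20, 21) -/
def ST_KOMLOS : Prop :=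
  ∃ K : ℝ, 0 < K ∧ ∀ (V R : Type) [Fintype V] [Fintype R] (a : V → R → ℝ),
    (∀ v, ∑ S, a v S ^ 2 ≤ 1) → ∃ x : V → ℝ, (∀ v, x v = 1 ∨ x v = -1) ∧
      ∀ S, |∑ v, x v * a v S| ≤ K

end

end Pool.Agent.Helper37.KF
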